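import Mathlib

namespace Pool.Agent.Results.MP_d23f22_an.Gap

open Set Real Filter Topology Function
open scoped ContDiff

/-- the lift of `F_{V,l}` to the plane, in coordinates `(θ, r)` -/
def F (V : ℝ → ℝ) (l : ℝ) (p : ℝ × ℝ) : ℝ × ℝ := (p.1 + (p.2 + l * V p.1), p.2 + l * V p.1)

/-- `Γ` is invariant and all orbits on it have rotation number `ρ` -/
def Inv (V : ℝ → ℝ) (l ρ : ℝ) (Γ : Set (ℝ × ℝ)) : Prop :=
  F V l '' Γ = Γ ∧ ∀ z : ℤ → ℝ × ℝ, z 0 ∈ Γ → (∀ n, z (n + 1) = F V l (z n)) →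
    Tendsto (fun n : ℤ => ((z n).1 - (z 0).1) / n) (atTop ⊔ atBot) (𝓝 ρ)

/-- an essential invariant circle of rotation number `ρ`, given by its lift -/
def Circle (V : ℝ → ℝ) (l ρ : ℝ) : Prop :=
  ∃ c : ℝ → ℝ × ℝ, Continuous c ∧ Injective c ∧ (∀ t, c (t + 1) = c t + (1, 0)) ∧ Inv V l ρ (range c)

/-- an analytic invariant circle of rotation number `ρ` -/
def ACircle (V : ℝ → ℝ) (l ρ : ℝ) : Prop :=
  ∃ R : ℝ → ℝ, AnalyticOnNhd ℝ R univ ∧ Periodic R 1 ∧ Inv V l ρ {p | p.2 = R p.1}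

def Dioph (ρ : ℝ) : Prop :=
  ∃ C > (0 : ℝ), ∃ d > (2 : ℝ), ∀ m n : ℕ, 0 < m → 0 < n → C / (n : ℝ) ^ d < |ρ - m / n|

noncomputable def σ : ℝ := (√5 - 1) / 2

lemma σ_mem : 1 / 2 ≤ σ ∧ σ ≤ 5 / 8 := by
  have h1 : (2 : ℝ) ≤ √5 := le_sqrt_of_sq_le (by norm_num)
  have h2 : √5 ≤ 9 / 4 := sqrt_le_iff.2 (by norm_num)
  unfold σ; constructor <;> linarith

lemma dioph : Dioph σ := by
  refine ⟨1 / 4, by norm_num, 3, by norm_num, fun m n hm hn => ?_⟩
  have n1 : (1 : ℝ) ≤ n := by exact_mod_cast hn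
  have h5 : σ ^ 2 + σ = 1 := by
    have := sq_sqrt (show (0 : ℝ) ≤ 5 by norm_num)
    unfold σ; linarith
  have ir : σ - m / n ≠ 0 := fun e => (Nat.Prime.irrational_sqrt (p := 5) (by norm_num))
    ⟨2 * (m / n) + 1, by unfold σ at e; push_cast; linarith⟩
  obtain ⟨s1, s2⟩ := σ_mem
  have q : (0 : ℝ) < m / n := by positivity
  have e : (σ - m / n) * (σ + 1 + m / n) * n ^ 2 = ((n : ℤ) ^ 2 - m * n - m ^ 2 : ℤ) := by
    push_cast; field_simp; linear_combination n ^ 2 * h5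
  have e1 : (1 : ℝ) ≤ |σ - m / n| * (σ + 1 + m / n) * n ^ 2 := by
    rw [← abs_of_pos (a := σ + 1 + m / n) (by linarith), ← abs_of_pos (a := (n : ℝ) ^ 2)
      (by positivity), ← abs_mul, ← abs_mul, e, ← Int.cast_abs, ← Int.cast_one, Int.cast_le]
    exact Int.one_le_abs fun k => by
      rw [k, Int.cast_zero] at e
      exact (mul_ne_zero (mul_ne_zero ir (by linarith)) (by positivity)) e
  rw [show (3 : ℝ) = (3 : ℕ) by norm_num, rpow_natCast, div_lt_iff₀ (by positivity)]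
  have p := abs_pos.2 ir
  have n2 : (1 : ℝ) ≤ n ^ 2 := one_le_pow₀ n1
  have n3 : (n : ℝ) ^ 2 ≤ n ^ 3 := pow_le_pow_right₀ n1 (by norm_num)
  by_cases k : 1 ≤ |σ - m / n|
  · nlinarith
  · have := neg_abs_le (σ - m / n)
    nlinarith [mul_le_mul_of_nonneg_left (show σ + 1 + m / n ≤ 7 / 2 by linarith)
      (mul_pos p (by positivity : (0 : ℝ) < n ^ 2)).le]

lemma squeeze {G H : ℝ → ℝ} {a b : ℝ} (hab : a < b) (hH : StrictMono H) (h1 : ∀ x, H (G x) = x)
    (h2 : ∀ x, G (H x) = x) (hp : ∀ (k : ℤ) x, H (x - k) = H x - k)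
    (c : ∀ x y, a ≤ x → x < y → y ≤ b → G y - G x < y - x ∧ H y - H x < y - x) :
    G b - G a ≤ 1 - (b - a) := by
  by_contra! q
  have : G a < G b := hH.lt_iff_lt.1 (by rwa [h1, h1])
  obtain ⟨k, u, v, q1, q2, q3, q4, q5⟩ : ∃ k : ℤ, ∃ u v, u < v ∧ G a ≤ u ∧ v ≤ G b ∧
      a ≤ u - k ∧ v - k ≤ b := by
    have f1 := Int.floor_le (G a - a)
    have f2 := Int.lt_floor_add_one (G a - a)
    by_cases k : G a < b + ⌊G a - a⌋
    · exact ⟨⌊G a - a⌋, G a, min (G b) (b + ⌊G a - a⌋), by grind⟩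
    · exact ⟨⌊G a - a⌋ + 1, a + ⌊G a - a⌋ + 1, min (G b) (b + ⌊G a - a⌋ + 1), by push_cast; grind⟩
  have k1 := (c (H u) (H v) (h1 a ▸ hH.monotone q2) (hH q1) (h1 b ▸ hH.monotone q3)).1
  have k2 := (c (u - k) (v - k) q4 (by linarith) q5).2
  rw [h2, h2] at k1
  rw [hp, hp] at k2
  linarith

lemma nocirc {V R : ℝ → ℝ} {l a b : ℝ} (hV : Continuous V) (pV : Periodic V 1) (hR : Continuous R)
    (pR : Periodic R 1) (hab : a < b) (c : ∀ x y, a ≤ x → x < y → y ≤ b → y + l * V y < x + l * V x)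
    (hb : 1 - 2 * (b - a) < l * (V b - V a) / 2) :
    F V l '' {p | p.2 = R p.1} ≠ {p | p.2 = R p.1} := fun e => by
  let G : ℝ → ℝ := fun x => x + (R x + l * V x)
  let H : ℝ → ℝ := fun x => x - R x
  have h1 : ∀ x, H (G x) = x := fun x => by
    have : F V l (x, R x) ∈ {p : ℝ × ℝ | p.2 = R p.1} := e ▸ mem_image_of_mem _ rfl
    simp only [H, G, ← show R x + l * V x = R (x + (R x + l * V x)) from this, add_sub_cancel_right]
  have h2 : ∀ x, G (H x) = x := fun x => by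
    obtain ⟨⟨y, _⟩, rfl : _ = R y, k⟩ : (x, R x) ∈ F V l '' {p | p.2 = R p.1} := e.symm ▸ rfl
    rw [← show G y = x from congrArg Prod.fst k, h1]
  have p1 : ∀ (k : ℤ) x, G (x - k) = G x - k := fun k x => by
    simp only [G, ← mul_one (k : ℝ) ▸ (pR.int_mul k).sub_eq x,
      ← mul_one (k : ℝ) ▸ (pV.int_mul k).sub_eq x]; ring
  have p2 : ∀ (k : ℤ) x, H (x - k) = H x - k := fun k x => by
    simp only [H, ← mul_one (k : ℝ) ▸ (pR.int_mul k).sub_eq x]; ring
  have mG : StrictMono G := (Continuous.strictMono_of_inj (by fun_prop)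
    (LeftInverse.injective h1)).resolve_right fun k => by
      have := k (show (0 : ℝ) - (1 : ℤ) < 0 by norm_num)
      rw [p1, Int.cast_one] at this
      linarith
  have mH : StrictMono H := fun x y k => mG.lt_iff_lt.1 (by rwa [h2, h2])
  have c' : ∀ x y, a ≤ x → x < y → y ≤ b → G y - G x < y - x ∧ H y - H x < y - x := by
    intro x y q1 q2 q3
    have := c x y q1 q2 q3
    have := mG q2
    have := mH q2
    simp only [G, H] at *
    constructor <;> linarith
  have k1 := squeeze hab mH h1 h2 p2 c'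
  have k2 := squeeze hab mG h2 h1 p1 fun x y q1 q2 q3 => (c' x y q1 q2 q3).symm
  simp only [G, H] at k1 k2
  linarith

noncomputable def h (s : ℝ) : ℝ := s + arctan (24 * sin (2 * π * s) / (25 - 24 * cos (2 * π * s))) / π

lemma h_der (s : ℝ) : HasDerivAt h (49 / (1201 - 1200 * cos (2 * π * s))) s := by
  have d := (hasDerivAt_id' s).const_mul (2 * π)
  have c1 := cos_le_one (2 * π * s)
  have c2 : 25 - 24 * cos (2 * π * s) ≠ 0 := by linarith
  refine ((hasDerivAt_id' s).fun_add (((d.sin.const_mul 24).fun_div ((d.cos.const_mul 24).const_sub 25)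
    c2).arctan.div_const π)).congr_deriv ?_
  have c3 : 1201 - 1200 * cos (2 * π * s) ≠ 0 := by linarith
  have e : 1 + (24 * sin (2 * π * s) / (25 - 24 * cos (2 * π * s))) ^ 2 =
      (1201 - 1200 * cos (2 * π * s)) / (25 - 24 * cos (2 * π * s)) ^ 2 := by
    field_simp; linear_combination 576 * sin_sq_add_cos_sq (2 * π * s)
  have := sin_sq_add_cos_sq (2 * π * s)
  rw [e]
  generalize cos (2 * π * s) = c at *
  generalize sin (2 * π * s) = t at *
  have c4 : 25 - c * 24 ≠ 0 := by rwa [mul_comm]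
  field_simp
  linear_combination -1152 * this

lemma h_an : ContDiff ℝ ω h :=
  contDiff_id.add ((contDiff_arctan.comp (ContDiff.div (by fun_prop) (by fun_prop) fun s => by
    linarith [cos_le_one (2 * π * s)])).div_const π)

lemma h_pos (s : ℝ) : 0 < 49 / (1201 - 1200 * cos (2 * π * s)) :=
  div_pos (by norm_num) (by linarith [cos_le_one (2 * π * s)])

lemma h_mono : StrictMono h := strictMono_of_deriv_pos fun s => (h_der s).deriv ▸ h_pos s

lemma h_near (s : ℝ) : |h s - s| ≤ 1 / 2 := by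
  rw [h, add_sub_cancel_left, abs_div, abs_of_pos pi_pos, div_le_iff₀ pi_pos, abs_le]
  constructor <;> linarith [arctan_lt_pi_div_two (24 * sin (2 * π * s) / (25 - 24 * cos (2 * π * s))),
    neg_pi_div_two_lt_arctan (24 * sin (2 * π * s) / (25 - 24 * cos (2 * π * s)))]

lemma h_add (s : ℝ) : h (s + 1) = h s + 1 := by
  simp only [h, mul_add, mul_one, sin_add_two_pi, cos_add_two_pi]; ring

lemma h_neg (s : ℝ) : h (-s) = -h s := by
  simp only [h, mul_neg, sin_neg, cos_neg, neg_div, arctan_neg]; ring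

noncomputable def e : ℝ ≃ₜ ℝ := (h_mono.orderIsoOfSurjective h (h_an.continuous.surjective
  (tendsto_atTop_mono (fun s => by linarith [(abs_le.1 (h_near s)).1, id_eq s])
    (tendsto_atTop_add_const_right _ (-(1 / 2)) tendsto_id))
  (tendsto_atBot_mono (fun s => by linarith [(abs_le.1 (h_near s)).2, id_eq s])
    (tendsto_atBot_add_const_right _ (1 / 2) tendsto_id)))).toHomeomorph

lemma e_an : ContDiff ℝ ω e.symm :=
  e.contDiff_symm_deriv (fun s => (h_pos s).ne') h_der h_an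

lemma e_h (s : ℝ) : e.symm (h s) = s := e.symm_apply_apply s

lemma sur : Surjective h := e.surjective

noncomputable def V (x : ℝ) : ℝ := h (e.symm x + σ) + h (e.symm x - σ) - 2 * x
noncomputable def R (x : ℝ) : ℝ := x - h (e.symm x - σ)

lemma V_an : ContDiff ℝ ω V := ((h_an.comp (e_an.add contDiff_const)).add
  (h_an.comp (e_an.sub contDiff_const))).sub (contDiff_const.mul contDiff_id)

lemma V_per : Periodic V 1 := sur.forall.2 fun s => by
  rw [V, V, ← h_add, e_h, e_h, add_right_comm s, add_sub_right_comm s, h_add, h_add, h_add]; ring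

lemma circ : ACircle V 1 σ := by
  have k : ∀ s, F V 1 (h s, R (h s)) = (h (s + σ), R (h (s + σ))) := fun s => by
    simp only [F, R, V, e_h, add_sub_cancel_right]
    congr 1 <;> ring
  refine ⟨R, (contDiff_id.sub (h_an.comp (e_an.sub contDiff_const))).analyticOnNhd,
    sur.forall.2 fun s => by rw [R, R, ← h_add, e_h, e_h, add_sub_right_comm, h_add, h_add]; ring,
    ?_, fun z h0 hz => ?_⟩
  · ext ⟨x, y⟩
    constructor
    · rintro ⟨⟨u, _⟩, rfl : _ = R u, q⟩
      obtain ⟨s, rfl⟩ := sur u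
      rw [← q, k]; rfl
    · rintro (rfl : y = R x)
      obtain ⟨s, rfl⟩ := sur x
      exact ⟨(h (s - σ), R (h (s - σ))), rfl, by rw [k, sub_add_cancel]⟩
  obtain ⟨s, hs⟩ := sur (z 0).1
  have q : ∀ n : ℤ, z n = (h (s + n * σ), R (h (s + n * σ))) := fun n => by
    induction n using Int.induction_on with
    | zero => exact Prod.ext (by simp [hs]) (by simpa [hs] using h0)
    | succ n ih => rw [hz, ih, k]; push_cast; ring_nf
    | pred n ih =>
      have := hz (-n - 1)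
      rw [sub_add_cancel, ih, ← sub_add_cancel (s + _) σ, ← k, Prod.ext_iff] at this
      have e1 : h (s + (-n : ℤ) * σ - σ) = (z (-n - 1)).1 := by simp only [F] at this; linarith
      have e2 : s + (-n - 1 : ℤ) * σ = s + (-n : ℤ) * σ - σ := by push_cast; ring
      simp only [F, ← e1] at this
      exact Prod.ext (e2 ▸ e1.symm) (by rw [e2]; linarith)
  have t : Tendsto (fun n : ℤ => |(n : ℝ)|) (atTop ⊔ atBot) atTop := tendsto_sup.2
    ⟨tendsto_abs_atTop_atTop.comp tendsto_intCast_atTop_atTop,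
      tendsto_abs_atBot_atTop.comp (tendsto_intCast_atBot_iff.2 tendsto_id)⟩
  refine tendsto_iff_norm_sub_tendsto_zero.2 (squeeze_zero' (Eventually.of_forall fun _ => norm_nonneg _)
    ((t.eventually_gt_atTop 0).mono fun n hn => ?_) t.inv_tendsto_atTop)
  have n1 := abs_le.1 (h_near s)
  have n2 := abs_le.1 (h_near (s + n * σ))
  rw [q, ← hs, norm_eq_abs, div_sub' (abs_pos.1 hn), abs_div, Pi.inv_apply, ← one_div]
  exact div_le_div_of_nonneg_right (abs_le.2 ⟨by linarith, by linarith⟩) hn.le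

lemma gap {S : ℝ → ℝ} (hS : Continuous S) (pS : Periodic S 1) :
    F V (3 / 4) '' {p | p.2 = S p.1} ≠ {p | p.2 = S p.1} := by
  have pp := pi_gt_three
  obtain ⟨s1, s2⟩ := σ_mem
  let p := arccos (24 / 25) / (2 * π)
  have p0 : 2 * π * p = arccos (24 / 25) := mul_div_cancel₀ _ (by positivity)
  have p1 : 0 < p := div_pos (arccos_pos.2 (by norm_num)) (by positivity)
  have p2 : p ≤ 1 / 8 := by
    have := arccos_le_pi_div_four.2 (show √2 / 2 ≤ 24 / 25 by
      linarith [show √2 ≤ 3 / 2 from sqrt_le_iff.2 (by norm_num)])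
    rw [div_le_iff₀ (by positivity)]; linarith
  have p3 : cos (2 * π * p) = 24 / 25 := by rw [p0, cos_arccos] <;> norm_num
  have p4 : 2 / 5 ≤ h p := by
    have a1 := arctan_inv_of_pos (x := 7 / 24) (by norm_num)
    have a2 := le_tan (arctan_nonneg.2 (show (0 : ℝ) ≤ 7 / 24 by norm_num)) (arctan_lt_pi_div_two _)
    have a3 : √(1 - (24 / 25) ^ 2) = 7 / 25 := sqrt_eq_iff_mul_self_eq_of_pos (by norm_num) |>.2
      (by norm_num)
    rw [tan_arctan] at a2
    rw [h, p3, p0, sin_arccos, a3, show (24 * (7 / 25) / (25 - 24 * (24 / 25)) : ℝ) = (7 / 24)⁻¹ by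
      norm_num, a1, ← sub_le_iff_le_add', le_div_iff₀ pi_pos]
    nlinarith
  have m : StrictMonoOn (fun s => h s / 2 - 3 / 4 * (h (s + σ) + h (s - σ))) (Icc (-p) p) := by
    have d := fun s => ((h_der s).div_const 2).fun_sub ((((h_der (s + σ)).comp_add_const s σ).fun_add
      ((h_der (s - σ)).comp_sub_const s σ)).const_mul (3 / 4))
    refine strictMonoOn_of_deriv_pos (convex_Icc _ _)
      (fun s _ => (d s).continuousAt.continuousWithinAt) fun s hs => ?_
    obtain ⟨q1, q2⟩ := interior_subset hs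
    have c0 : 24 / 25 ≤ cos (2 * π * s) := by
      rw [← p3, ← cos_abs (2 * π * s)]
      exact cos_le_cos_of_nonneg_of_le_pi (abs_nonneg _) (by nlinarith) (abs_le.2 ⟨by nlinarith, by nlinarith⟩)
    have c1 : cos (2 * π * (s + σ)) ≤ 0 := cos_nonpos_of_pi_div_two_le_of_le (by nlinarith) (by nlinarith)
    have c2 : cos (2 * π * (s - σ)) ≤ 0 := by
      rw [← cos_neg]
      exact cos_nonpos_of_pi_div_two_le_of_le (by nlinarith) (by nlinarith)
    have b0 : 1 ≤ 49 / (1201 - 1200 * cos (2 * π * s)) := by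
      rw [le_div_iff₀ (by linarith [cos_le_one (2 * π * s)])]; linarith
    have b1 : 49 / (1201 - 1200 * cos (2 * π * (s + σ))) ≤ 1 / 10 := by
      rw [div_le_iff₀ (by linarith)]; linarith
    have b2 : 49 / (1201 - 1200 * cos (2 * π * (s - σ))) ≤ 1 / 10 := by
      rw [div_le_iff₀ (by linarith)]; linarith
    rw [(d s).deriv]
    linarith
  refine nocirc (a := h (-p)) (b := h p) V_an.continuous V_per hS pS (h_mono (by linarith)) ?_ ?_
  · refine sur.forall₂.2 fun s t q1 q2 q3 => ?_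
    rw [h_mono.le_iff_le] at q1 q3
    rw [h_mono.lt_iff_lt] at q2
    have := m ⟨q1, by linarith⟩ ⟨by linarith, q3⟩ q2
    simp only [V, e_h]
    linarith
  · have := h_mono (show -p + σ < p + σ by linarith)
    have := h_mono (show -p - σ < p - σ by linarith)
    simp only [V, e_h]
    linarith [h_neg p]

theorem result : ∃ (V : ℝ → ℝ) (ρ : ℝ), AnalyticOnNhd ℝ V univ ∧ Periodic V 1 ∧ V ≠ 0 ∧
    ∫ x in (0 : ℝ)..1, V x = 0 ∧ Dioph ρ ∧ ACircle V 1 ρ ∧ (∀ ρ', ¬ ACircle V (3 / 4) ρ') ∧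
    ¬ ∃ Λ ≥ (0 : ℝ), (∀ l, Λ < |l| → ¬ Circle V l ρ) ∧ ∀ l, |l| < Λ → ACircle V l ρ := by
  have g : ∀ ρ', ¬ ACircle V (3 / 4) ρ' := fun _ ⟨_, h1, h2, h3, _⟩ => gap h1.continuous h2 h3
  refine ⟨V, σ, V_an.analyticOnNhd, V_per, fun k => gap continuous_zero (fun _ => rfl) ?_, ?_,
    dioph, circ, g, fun ⟨Λ, _, h1, h2⟩ => ?_⟩
  · ext ⟨x, y⟩
    simp [F, k, eq_comm]
  · have := intervalIntegral.integral_comp_sub_left (a := 0) (b := 1) V 1
    have o : ∀ x, V (1 - x) = -V x := sur.forall.2 fun s => by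
      rw [V_per.sub_eq', V, V, ← h_neg, e_h, e_h, show -s + σ = -(s - σ) by ring, ← neg_add', h_neg,
        h_neg, h_neg]; ring
    simp only [o, intervalIntegral.integral_neg, sub_self, sub_zero] at this
    linarith
  · obtain ⟨S, k1, k2, k3⟩ := circ
    refine h1 1 (lt_of_not_ge fun q => g σ (h2 _ (by rw [abs_one] at q; rw [abs_of_pos] <;> linarith)))
      ⟨fun t => (t, S t), continuous_id.prodMk k1.continuous, fun _ _ q => congrArg Prod.fst q,
        fun t => by simp [k2 t], ?_⟩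
    convert k3
    ext ⟨x, y⟩
    simp [eq_comm]

end Pool.Agent.Results.MP_d23f22_an.Gap
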